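import Pool.Agent.Helper53.UV.Par
import Pool.Agent.Helper96.BR.PAR

/-!
# Packet UV-PRA: the parameters are good

An adaptation of `Pool/Agent/Helper95/UR/PRA.lean`.
-/

namespace Pool.Agent.Helper13.UV

open Pool.Agent.Helper65.LinSpace Pool.Agent.Helper78.Mpc Pool.Agent.Helper53.UV
open Pool.Agent.Helper53.UR (betU KU)
open Pool.Agent.Helper65.BR (Mach BM Prm prm bT lT)

theorem okV_ne {n T : ℕ} (h : okV n T ≠ 0) :
    bT n T 0 + 1 + (bT n T 3 + 1) * 2 ^ eV n T ≤ betU n T ∧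
      bT n T 1 + 1 ≤ betU n T ∧ bT n T 2 + 2 ≤ betU n T := by
  unfold okV at h
  obtain ⟨h1, h2⟩ := Nat.mul_ne_zero_iff.1 h
  obtain ⟨h2, h3⟩ := Nat.mul_ne_zero_iff.1 h2
  exact ⟨Pool.Agent.Helper96.BR.le01_ne h1, Pool.Agent.Helper96.BR.le01_ne h2,
    Pool.Agent.Helper96.BR.le01_ne h3⟩

theorem c_le (n T : ℕ) : 1 ≤ bV n T ∧ cV n T ≤ bV n T := by
  by_cases h : okV n T = 0
  · unfold bV cV
    rw [h]
    exact ⟨le_rfl, Nat.zero_le _⟩
  · have h1 := okV_ne h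
    have e1 : bV n T = betU n T := if_neg h
    have e2 : cV n T = bT n T 2 + 2 := if_neg h
    rw [e1, e2]
    omega

theorem K_pos (n T : ℕ) : 1 ≤ KU n T := Nat.succ_pos _

theorem bound (n T : ℕ) :
    (bT n T 0 + 1) + (bT n T 3 + 1) * 2 ^ eV n T ≤ 3 * (n + 1) := by
  have h0 := Pool.Agent.Helper96.BR.bT_le n T 0
  have h1 := Pool.Agent.Helper96.BR.bT_le n T 3
  have hq := Pool.Agent.Helper96.BR.qT_le' n
  have hb : betU n T ≤ n := Nat.div_le_self _ _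
  have h2 : (bT n T 3 + 1) * 2 ^ eV n T ≤ n + 1 := by
    unfold eV
    by_cases h : betU n T / (2 * (bT n T 3 + 1)) = 0
    · rw [h, Nat.log_zero_right, pow_zero, mul_one]
      omega
    · have h3 : 2 ^ Nat.log 2 (betU n T / (2 * (bT n T 3 + 1))) ≤
          betU n T / (2 * (bT n T 3 + 1)) := Nat.pow_log_le_self 2 h
      have h4 : 2 * (bT n T 3 + 1) * (betU n T / (2 * (bT n T 3 + 1))) ≤ betU n T :=
        Nat.mul_div_le _ _
      have h5 : (bT n T 3 + 1) * 2 ^ Nat.log 2 (betU n T / (2 * (bT n T 3 + 1))) ≤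
          (bT n T 3 + 1) * (betU n T / (2 * (bT n T 3 + 1))) := Nat.mul_le_mul_left _ h3
      have h6 : 2 * (bT n T 3 + 1) * (betU n T / (2 * (bT n T 3 + 1))) =
          2 * ((bT n T 3 + 1) * (betU n T / (2 * (bT n T 3 + 1)))) := by ring
      omega
  omega

/-- PRA. -/
theorem gPRA : GoalPRA := by
  intro hV
  refine ⟨fun n T => ⟨?_, ?_, (c_le n T).1, (c_le n T).2, bound n T⟩, ?_, ?_⟩
  · omega
  · exact Nat.le_mul_of_pos_left _ (K_pos n T)
  · intro z mm v x y w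
    exact Nat.mod_lt _ (by positivity)
  · intro z hz
    have h1 := okV_ne hz
    have e1 : Qn.b z = betU (Qn.n z) (Qn.T z) := if_neg hz
    have e2 : Qn.c z = bT (Qn.n z) (Qn.T z) 2 + 2 := if_neg hz
    refine ⟨hV.ok _ _ _ (Pool.Agent.Helper96.BR.PAR _ _ _ _ _).2, K_pos _ _, (c_le _ _).2,
      ?_, ?_, ?_⟩
    · rw [e2]
      change bT (Qn.n z) (Qn.T z) 2 + 1 < _
      omega
    · rw [e1]
      exact h1.1
    · rw [e1]
      exact h1.2.1

end Pool.Agent.Helper13.UV
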